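import Mathlib

/-!
MP_891d15, Q1 (disproved).  For `p = 73` the sequence consisting of `70` copies of `1` and `4` copies
of `38` has length `p + 1` and no 2-zero subsequence, so `D_{e_2}^{(2)}(Z_73) ≥ 75 = p + 2`.
-/

namespace Pool.Agent.Results.MP_891d15_co.PrimeSeventyThree

open Finset

/-- The second elementary symmetric value of the subsequence indexed by `I`. -/
def e2 {n k : ℕ} (s : Fin k → ZMod n) (I : Finset (Fin k)) : ZMod n :=
  ∑ i ∈ I, ∑ j ∈ I.filter (fun j => i < j), s i * s j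

/-- the subsequence indexed by `I` is 2-zero -/
def IsTwoZero {n k : ℕ} (s : Fin k → ZMod n) (I : Finset (Fin k)) : Prop :=
  2 ≤ I.card ∧ e2 s I = 0

/-- the sequence `s` is 2-zero free -/
def TwoZeroFree {n k : ℕ} (s : Fin k → ZMod n) : Prop := ∀ I, ¬ IsTwoZero s I

/-- `D_{e_2}^{(2)}(Z_n)`: the least `ℓ` such that every sequence of length `ℓ` has a 2-zero
subsequence -/
noncomputable def D (n : ℕ) : ℕ := sInf {l | ∀ s : Fin l → ZMod n, ∃ I, IsTwoZero s I}

lemma two_e2 {n k : ℕ} (s : Fin k → ZMod n) (I : Finset (Fin k)) :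
    2 * e2 s I = (∑ i ∈ I, s i) ^ 2 - ∑ i ∈ I, s i ^ 2 := by
  have h1 : (∑ i ∈ I, s i) ^ 2 = ∑ i ∈ I, ∑ j ∈ I, s i * s j := by
    rw [sq, Finset.sum_mul_sum]
  have h2 : ∀ i ∈ I, ∑ j ∈ I, s i * s j = ∑ j ∈ I.filter (fun j => i < j), s i * s j
      + ∑ j ∈ I.filter (fun j => j < i), s i * s j + s i ^ 2 := by
    intro i hi
    have e1 : ∑ j ∈ I, s i * s j = ∑ j ∈ I.filter (fun j => i < j), s i * s j +
        ∑ j ∈ I.filter (fun j => ¬ i < j), s i * s j :=
      (Finset.sum_filter_add_sum_filter_not I (fun j => i < j) _).symm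
    have e2' : I.filter (fun j => ¬ i < j) = insert i (I.filter (fun j => j < i)) := by
      ext j
      simp only [mem_filter, mem_insert, not_lt]
      constructor
      · rintro ⟨h3, h4⟩
        rcases eq_or_lt_of_le h4 with h5 | h5
        · left; exact h5
        · right; exact ⟨h3, h5⟩
      · rintro (h3 | ⟨h3, h4⟩)
        · subst h3; exact ⟨hi, le_rfl⟩
        · exact ⟨h3, h4.le⟩
    rw [e1, e2', Finset.sum_insert (by simp)]
    ring
  rw [h1, Finset.sum_congr rfl h2, Finset.sum_add_distrib, Finset.sum_add_distrib]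
  have h3 : ∑ i ∈ I, ∑ j ∈ I.filter (fun j => j < i), s i * s j = e2 s I := by
    unfold e2
    simp only [Finset.sum_filter]
    rw [Finset.sum_comm]
    refine Finset.sum_congr rfl fun i _ => Finset.sum_congr rfl fun j _ => ?_
    split_ifs
    · ring
    · rfl
  rw [h3]
  unfold e2
  ring

/-- 70 copies of 1 and 4 copies of 38 -/
def seq74 (i : Fin 74) : ZMod 73 := if (i : ℕ) < 70 then 1 else 38

lemma check : ∀ a ∈ range 71, ∀ b ∈ range 5, 2 ≤ a + b →
    (((a : ℕ) : ZMod 73) + 38 * b) ^ 2 - (a + 38 ^ 2 * b) ≠ 0 := by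
  decide

lemma seq74_free : TwoZeroFree seq74 := by
  rintro I ⟨hcard, h0⟩
  have h := two_e2 seq74 I
  rw [h0, mul_zero] at h
  set A := I.filter (fun i : Fin 74 => (i : ℕ) < 70) with hA
  set B := I.filter (fun i : Fin 74 => ¬ (i : ℕ) < 70) with hB
  have hab : A.card + B.card = I.card := by
    rw [hA, hB]; exact Finset.card_filter_add_card_filter_not _
  have hAle : A.card ≤ 70 := by
    have : A ⊆ (univ : Finset (Fin 74)).filter (fun i : Fin 74 => (i : ℕ) < 70) :=
      Finset.filter_subset_filter _ (subset_univ _)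
    refine (Finset.card_le_card this).trans ?_
    decide
  have hBle : B.card ≤ 4 := by
    have : B ⊆ (univ : Finset (Fin 74)).filter (fun i : Fin 74 => ¬ (i : ℕ) < 70) :=
      Finset.filter_subset_filter _ (subset_univ _)
    refine (Finset.card_le_card this).trans ?_
    decide
  have hs1 : ∑ i ∈ I, seq74 i = (A.card : ZMod 73) + 38 * B.card := by
    rw [← Finset.sum_filter_add_sum_filter_not I (fun i : Fin 74 => (i : ℕ) < 70)]
    have e1 : ∑ i ∈ I.filter (fun i : Fin 74 => (i : ℕ) < 70), seq74 i = ∑ i ∈ A, (1 : ZMod 73) :=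
      Finset.sum_congr rfl fun i hi => by
        unfold seq74; rw [if_pos (Finset.mem_filter.mp hi).2]
    have e2 : ∑ i ∈ I.filter (fun i : Fin 74 => ¬ (i : ℕ) < 70), seq74 i = ∑ i ∈ B, (38 : ZMod 73) :=
      Finset.sum_congr rfl fun i hi => by
        unfold seq74; rw [if_neg (Finset.mem_filter.mp hi).2]
    rw [e1, e2]
    simp [mul_comm]
  have hs2 : ∑ i ∈ I, seq74 i ^ 2 = (A.card : ZMod 73) + 38 ^ 2 * B.card := by
    rw [← Finset.sum_filter_add_sum_filter_not I (fun i : Fin 74 => (i : ℕ) < 70)]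
    have e1 : ∑ i ∈ I.filter (fun i : Fin 74 => (i : ℕ) < 70), seq74 i ^ 2 = ∑ i ∈ A, (1 : ZMod 73) :=
      Finset.sum_congr rfl fun i hi => by
        unfold seq74; rw [if_pos (Finset.mem_filter.mp hi).2, one_pow]
    have e2 : ∑ i ∈ I.filter (fun i : Fin 74 => ¬ (i : ℕ) < 70), seq74 i ^ 2
        = ∑ i ∈ B, (38 ^ 2 : ZMod 73) :=
      Finset.sum_congr rfl fun i hi => by
        unfold seq74; rw [if_neg (Finset.mem_filter.mp hi).2]
    rw [e1, e2]
    simp [mul_comm]
  rw [hs1, hs2] at h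
  exact check A.card (mem_range.mpr (by omega)) B.card (mem_range.mpr (by omega)) (by omega)
    h.symm

/-- a sequence in which some value is taken at least `73` times is not 2-zero free -/
lemma not_free_of_mult {l : ℕ} (s : Fin l → ZMod 73) (x : ZMod 73)
    (h : 73 ≤ ((univ : Finset (Fin l)).filter (fun i => s i = x)).card) :
    ∃ I, IsTwoZero s I := by
  obtain ⟨I, hI, hc⟩ := Finset.exists_subset_card_eq h
  refine ⟨I, by omega, ?_⟩
  have h2 := two_e2 s I
  have hv : ∀ i ∈ I, s i = x := fun i hi => (Finset.mem_filter.mp (hI hi)).2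
  have e1 : ∑ i ∈ I, s i = 0 := by
    rw [Finset.sum_congr rfl hv, Finset.sum_const, hc, nsmul_eq_mul]
    have : ((73 : ℕ) : ZMod 73) = 0 := ZMod.natCast_self 73
    rw [this, zero_mul]
  have e2 : ∑ i ∈ I, s i ^ 2 = 0 := by
    rw [Finset.sum_congr rfl (fun i hi => by rw [hv i hi]), Finset.sum_const, hc, nsmul_eq_mul]
    have : ((73 : ℕ) : ZMod 73) = 0 := ZMod.natCast_self 73
    rw [this, zero_mul]
  rw [e1, e2] at h2
  have h20 : (2 : ZMod 73) ≠ 0 := by decide
  have h3 : (2 : ZMod 73) * PrimeSeventyThree.e2 s I = 0 := by rw [h2]; ring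
  have : Fact (Nat.Prime 73) := ⟨by norm_num⟩
  rcases mul_eq_zero.mp h3 with h4 | h4
  · exact absurd h4 h20
  · exact h4

lemma nonempty_set : {l | ∀ s : Fin l → ZMod 73, ∃ I, IsTwoZero s I}.Nonempty := by
  refine ⟨73 * 73, fun s => ?_⟩
  have : Fact (Nat.Prime 73) := ⟨by norm_num⟩
  obtain ⟨x, -, hx⟩ := Finset.exists_le_card_fiber_of_mul_le_card_of_maps_to
    (s := (univ : Finset (Fin (73 * 73)))) (t := (univ : Finset (ZMod 73))) (f := s) (n := 73)
    (fun a _ => mem_univ _) ⟨0, mem_univ _⟩ (by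
      rw [Finset.card_univ, Finset.card_univ, ZMod.card, Fintype.card_fin])
  exact not_free_of_mult s x hx

lemma e2_map {k l : ℕ} (h : l ≤ k) (s : Fin k → ZMod 73) (I : Finset (Fin l)) :
    e2 (fun i => s (Fin.castLE h i)) I = e2 s (I.map (Fin.castLEEmb h)) := by
  unfold e2
  rw [Finset.sum_map]
  refine Finset.sum_congr rfl fun i _ => ?_
  rw [Finset.filter_map, Finset.sum_map]
  rfl

lemma free_restrict {k l : ℕ} (h : l ≤ k) {s : Fin k → ZMod 73} (hs : TwoZeroFree s) :
    TwoZeroFree (fun i : Fin l => s (Fin.castLE h i)) := by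
  rintro I ⟨h1, h2⟩
  apply hs (I.map (Fin.castLEEmb h))
  exact ⟨by rw [Finset.card_map]; exact h1, by rw [← e2_map h s I]; exact h2⟩

lemma D_ge : 75 ≤ D 73 := by
  unfold D
  apply le_csInf nonempty_set
  intro l hl
  by_contra hlt
  have hl' : l ≤ 74 := by omega
  obtain ⟨I, hI⟩ := hl (fun i : Fin l => seq74 (Fin.castLE hl' i))
  exact free_restrict hl' seq74_free I hI

/-- `p = 73` is a prime congruent to `1` modulo `4`, and there is a 2-zero free sequence of length
`p + 1` over `Z_p`, so the invariant is at least `p + 2`; in particular Q1 is false. -/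
theorem result : Nat.Prime 73 ∧ 73 % 4 = 1 ∧ (∃ s : Fin (73 + 1) → ZMod 73, TwoZeroFree s) ∧
    73 + 2 ≤ D 73 ∧ ¬ (∀ p : ℕ, p.Prime → p % 4 = 1 → D p = p + 1) := by
  have hp : Nat.Prime 73 := by norm_num
  refine ⟨hp, by norm_num, ⟨seq74, seq74_free⟩, D_ge, ?_⟩
  intro h
  have h1 := h 73 hp (by norm_num)
  have h2 := D_ge
  omega

end Pool.Agent.Results.MP_891d15_co.PrimeSeventyThree
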